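import Pool.Agent.Run7.h100.UN.Iface

/-!
# Project UN (helper100), piece POLY: Eisenstein polynomials with prescribed residues
-/

set_option autoImplicit false

open Polynomial

namespace Run7.h305.UN

open Run7.h100.UN

theorem crt (N Q G e : ℤ) (h : IsCoprime N Q) (hN : 0 < N) (hQ : 0 < Q) :
    ∃ a : ℤ, 0 ≤ a ∧ a < N * Q ∧ N ∣ a - G ∧ Q ∣ a - e := by
  obtain ⟨u, v, huv⟩ := h
  have hM : 0 < N * Q := mul_pos hN hQ
  set c : ℤ := G * (v * Q) + e * (u * N) with hc
  refine ⟨c % (N * Q), Int.emod_nonneg _ hM.ne', Int.emod_lt_of_pos _ hM, ?_, ?_⟩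
  · have h1 : c % (N * Q) - G = (c - G) - N * Q * (c / (N * Q)) := by
      have := Int.emod_add_mul_ediv c (N * Q)
      linarith
    rw [h1]
    refine dvd_sub ?_ (Dvd.intro _ (by ring : N * (Q * (c / (N * Q))) = N * Q * (c / (N * Q))))
    refine ⟨(e - G) * u, ?_⟩
    rw [hc]
    linear_combination G * huv
  · have h1 : c % (N * Q) - e = (c - e) - N * Q * (c / (N * Q)) := by
      have := Int.emod_add_mul_ediv c (N * Q)
      linarith
    rw [h1]
    refine dvd_sub ?_ (Dvd.intro _ (by ring : Q * (N * (c / (N * Q))) = N * Q * (c / (N * Q))))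
    refine ⟨(G - e) * v, ?_⟩
    rw [hc]
    linear_combination e * huv

theorem coeff_low (d : ℕ) (a : ℕ → ℤ) (n : ℕ) :
    (∑ i ∈ Finset.range d, C (a i) * X ^ i : ℤ[X]).coeff n = if n < d then a n else 0 := by
  simp only [finset_sum_coeff, coeff_C_mul, coeff_X_pow, mul_ite, mul_one, mul_zero,
    Finset.sum_ite_eq, Finset.mem_range]

theorem t_POLY (hHEN : S_HEN) : S_POLY := by
  classical
  intro s hs
  -- the auxiliary prime
  obtain ⟨q, hq1, hq⟩ := Nat.exists_infinite_primes (s.sup id + 1)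
  have hqs : ∀ p ∈ s, p ≠ q := by
    intro p hp h
    have h1 : p ≤ s.sup id := Finset.le_sup (f := id) hp
    omega
  set Cst : ℝ := 2 * Real.log q + ∑ p ∈ s, Real.log p with hCst
  refine ⟨max 1 (⌈2 * Cst + 1⌉₊), ?_⟩
  intro d hd
  have hd1 : 1 ≤ d := le_trans (le_max_left _ _) hd
  have hdC : 2 * Cst + 1 ≤ d := by
    have h1 : ⌈2 * Cst + 1⌉₊ ≤ d := le_trans (le_max_right _ _) hd
    exact (Nat.le_ceil _).trans (by exact_mod_cast h1)
  let k : ℕ → ℕ := fun p => 2 * padicValNat p (d - 1).factorial + 1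
  let G : ℤ[X] := ∏ j ∈ Finset.range d, (X - C (j : ℤ))
  have hGm : G.Monic := monic_prod_of_monic _ _ fun j _ => monic_X_sub_C _
  have hGd : G.natDegree = d := by
    have h1 := natDegree_finset_prod_X_sub_C_eq_card (Finset.range d) (fun j : ℕ => (j : ℤ))
    rw [Finset.card_range] at h1
    exact h1
  set Nn : ℕ := ∏ p ∈ s, p ^ k p with hNn
  have hNpos : 0 < Nn := Finset.prod_pos fun p hp => pow_pos (hs p hp).pos _
  have hcop : Nat.Coprime Nn (q ^ 2) := by
    refine Nat.Coprime.prod_left fun p hp => ?_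
    exact Nat.Coprime.pow _ _ ((Nat.coprime_primes (hs p hp) hq).2 (hqs p hp))
  have hcopZ : IsCoprime (Nn : ℤ) ((q : ℤ) ^ 2) := by
    have := Nat.isCoprime_iff_coprime.2 hcop
    push_cast at this ⊢
    exact this
  have hNZ : (0 : ℤ) < Nn := by exact_mod_cast hNpos
  have hQZ : (0 : ℤ) < (q : ℤ) ^ 2 := by
    have : (0 : ℤ) < q := by exact_mod_cast hq.pos
    positivity
  have hex : ∀ i : ℕ, ∃ a : ℤ, 0 ≤ a ∧ a < (Nn : ℤ) * (q : ℤ) ^ 2 ∧ (Nn : ℤ) ∣ a - G.coeff i ∧
      (q : ℤ) ^ 2 ∣ a - (if i = 0 then (q : ℤ) else 0) := fun i => crt _ _ _ _ hcopZ hNZ hQZ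
  choose a ha0 haM haN haq using hex
  set g : ℤ[X] := ∑ i ∈ Finset.range d, C (a i) * X ^ i with hg
  have hgc : ∀ n, g.coeff n = if n < d then a n else 0 := coeff_low d a
  have hgd : g.degree < (d : WithBot ℕ) := by
    rw [degree_lt_iff_coeff_zero]
    intro m hm
    rw [hgc, if_neg (by omega)]
  set f : ℤ[X] := X ^ d + g with hf
  have hfm : f.Monic := monic_X_pow_add hgd
  have hfd : f.natDegree = d := by
    refine natDegree_eq_of_degree_eq_some ?_
    rw [hf, degree_add_eq_left_of_degree_lt (by rw [degree_X_pow]; exact hgd), degree_X_pow]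
  have hfc : ∀ n, f.coeff n = if n < d then a n else if n = d then 1 else 0 := by
    intro n
    rw [hf, coeff_add, coeff_X_pow, hgc]
    by_cases h1 : n < d
    · have h2 : n ≠ d := by omega
      rw [if_neg h2, if_pos h1, zero_add]
    · rw [if_neg h1, if_neg h1, add_zero]
  have hfdeg : f.degree = d := by
    rw [degree_eq_natDegree hfm.ne_zero, hfd]
  have hqZ : Prime (q : ℤ) := Nat.prime_iff_prime_int.1 hq
  have hirr : Irreducible f := by
    refine irreducible_of_eisenstein_criterion (P := Ideal.span {(q : ℤ)})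
      ((Ideal.span_singleton_prime hqZ.ne_zero).2 hqZ) ?_ ?_ ?_ ?_ hfm.isPrimitive
    · rw [hfm.leadingCoeff, Ideal.mem_span_singleton]
      intro h
      exact hqZ.not_unit (isUnit_of_dvd_one h)
    · intro n hn
      rw [hfdeg] at hn
      have hn' : n < d := by exact_mod_cast hn
      rw [hfc, if_pos hn', Ideal.mem_span_singleton]
      have h1 : (q : ℤ) ∣ a n - (if n = 0 then (q : ℤ) else 0) :=
        (dvd_pow_self (q : ℤ) two_ne_zero).trans (haq n)
      have h2 : (q : ℤ) ∣ (if n = 0 then (q : ℤ) else 0) := by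
        split_ifs
        · exact dvd_rfl
        · exact dvd_zero _
      have h3 := dvd_add h1 h2
      rwa [sub_add_cancel] at h3
    · rw [hfdeg]
      exact_mod_cast hd1
    · rw [Ideal.span_singleton_pow, Ideal.mem_span_singleton, hfc, if_pos (by omega)]
      intro h
      have h1 := haq 0
      rw [if_pos rfl] at h1
      have h2 : (q : ℤ) ^ 2 ∣ (q : ℤ) := by
        have h3 := dvd_sub h h1
        rwa [sub_sub_cancel] at h3
      have h3 : q ^ 2 ∣ q := by exact_mod_cast h2
      have h4 := Nat.le_of_dvd hq.pos h3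
      have h5 := hq.two_le
      nlinarith
  refine ⟨f, hfm, hfd, hirr, ?_, ?_⟩
  · -- the size of the coefficients
    have hqR : (0 : ℝ) < q := by exact_mod_cast hq.pos
    have hNR : (0 : ℝ) < Nn := by exact_mod_cast hNpos
    have hN1 : (1 : ℝ) ≤ Nn := by exact_mod_cast hNpos
    have hq1R : (1 : ℝ) ≤ q := by exact_mod_cast hq.one_le
    have hMR1 : (1 : ℝ) ≤ Nn * (q : ℝ) ^ 2 := by
      have : (1 : ℝ) ≤ (q : ℝ) ^ 2 := one_le_pow₀ hq1R
      nlinarith
    have h1 : ∀ i ∈ Finset.range (d + 1), |(f.coeff i : ℝ)| ≤ Nn * (q : ℝ) ^ 2 := by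
      intro i _
      rw [hfc]
      by_cases h2 : i < d
      · rw [if_pos h2, abs_of_nonneg (by exact_mod_cast ha0 i)]
        have h3 := (haM i).le
        exact_mod_cast h3
      · rw [if_neg h2]
        split_ifs
        · simpa using hMR1
        · simp only [Int.cast_zero, abs_zero]
          positivity
    have h2 : ∑ i ∈ Finset.range (d + 1), |(f.coeff i : ℝ)| ≤ (d + 1) * (Nn * (q : ℝ) ^ 2) := by
      refine (Finset.sum_le_sum h1).trans (le_of_eq ?_)
      rw [Finset.sum_const, Finset.card_range, nsmul_eq_mul]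
      push_cast
      ring
    have h3 : (0 : ℝ) < ∑ i ∈ Finset.range (d + 1), |(f.coeff i : ℝ)| := by
      refine Finset.sum_pos' (fun i _ => abs_nonneg _) ⟨d, Finset.mem_range.2 (Nat.lt_succ_self d), ?_⟩
      rw [hfc, if_neg (lt_irrefl d), if_pos rfl]
      simp
    have hdR : (1 : ℝ) ≤ d := by exact_mod_cast hd1
    refine (Real.log_le_log h3 h2).trans ?_
    rw [Real.log_mul (by positivity) (by positivity), Real.log_mul hNR.ne' (by positivity),
      Real.log_pow]
    have h4 : Real.log Nn = ∑ p ∈ s, (k p : ℝ) * Real.log p := by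
      rw [hNn, Nat.cast_prod, Real.log_prod (fun p hp => by
        have : (0 : ℝ) < p := by exact_mod_cast (hs p hp).pos
        push_cast
        positivity)]
      refine Finset.sum_congr rfl fun p _ => ?_
      rw [Nat.cast_pow, Real.log_pow]
    have h5 : ∀ p ∈ s, (k p : ℝ) * Real.log p ≤
        2 * d * (Real.log p / ((p : ℝ) - 1)) + Real.log p := by
      intro p hp
      have : Fact p.Prime := ⟨hs p hp⟩
      have h6 := sub_one_mul_padicValNat_factorial (p := p) (d - 1)
      have h7 : (p - 1) * padicValNat p (d - 1).factorial ≤ d := by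
        rw [h6]; omega
      have hp2 : (2 : ℝ) ≤ p := by exact_mod_cast (hs p hp).two_le
      have hp1 : (0 : ℝ) < (p : ℝ) - 1 := by linarith
      have h8 : ((p : ℝ) - 1) * (padicValNat p (d - 1).factorial : ℝ) ≤ d := by
        have h9 : (((p - 1 : ℕ) : ℝ)) = (p : ℝ) - 1 := by
          rw [Nat.cast_sub (hs p hp).one_le]; simp
        rw [← h9]
        exact_mod_cast h7
      have h10 : (padicValNat p (d - 1).factorial : ℝ) ≤ d / ((p : ℝ) - 1) := by
        rw [le_div_iff₀ hp1]
        linarith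
      have hlog : 0 ≤ Real.log p := Real.log_nonneg (by linarith)
      have h11 : (k p : ℝ) = 2 * (padicValNat p (d - 1).factorial : ℝ) + 1 := by
        simp only [k]; push_cast; ring
      rw [h11]
      have h12 : 2 * (d : ℝ) * (Real.log p / ((p : ℝ) - 1)) = 2 * (d / ((p : ℝ) - 1)) * Real.log p := by
        ring
      rw [h12]
      nlinarith [mul_le_mul_of_nonneg_right h10 hlog]
    have h6 : Real.log Nn ≤ 2 * d * (∑ p ∈ s, Real.log p / ((p : ℝ) - 1)) + ∑ p ∈ s, Real.log p := by
      rw [h4, Finset.mul_sum, ← Finset.sum_add_distrib]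
      exact Finset.sum_le_sum h5
    have h7 : Real.log ((d : ℝ) + 1) ≤ d / 2 + 1 / 2 := by
      have h8 := Real.log_le_sub_one_of_pos (show (0 : ℝ) < ((d : ℝ) + 1) / 2 by positivity)
      rw [Real.log_div (by positivity) two_ne_zero] at h8
      have h9 := Real.log_two_lt_d9
      linarith
    have h8 : ((2 : ℕ) : ℝ) * Real.log q = 2 * Real.log q := by norm_num
    rw [h8]
    have h9 : (d : ℝ) * (1 + 2 * ∑ p ∈ s, Real.log p / ((p : ℝ) - 1)) =
        d + 2 * d * (∑ p ∈ s, Real.log p / ((p : ℝ) - 1)) := by ring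
    rw [h9]
    linarith
  · intro α hα p hp
    refine hHEN p d (hs p hp) f hfm hfd ?_ α hα
    intro i
    rw [coeff_sub]
    have h1 : ((p : ℤ) ^ (2 * padicValNat p (d - 1).factorial + 1)) ∣ (Nn : ℤ) := by
      have h2 : p ^ k p ∣ Nn := Finset.dvd_prod_of_mem (fun p => p ^ k p) hp
      exact_mod_cast h2
    rcases lt_trichotomy i d with h | h | h
    · rw [hfc, if_pos h]
      exact h1.trans (haN i)
    · have h2 : G.coeff i = 1 := by
        rw [h, ← hGd]
        exact hGm.coeff_natDegree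
      rw [hfc, if_neg (by omega), if_pos h]
      change _ ∣ 1 - G.coeff i
      rw [h2, sub_self]
      exact dvd_zero _
    · have h2 : G.coeff i = 0 := coeff_eq_zero_of_natDegree_lt (by rw [hGd]; exact h)
      rw [hfc, if_neg (by omega), if_neg (by omega)]
      change _ ∣ 0 - G.coeff i
      rw [h2, sub_self]
      exact dvd_zero _

end Run7.h305.UN
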